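import Pool.Agent.H817.RB.Form

/-!
# Quotients of domains of the affine 3-space with parallel volume

Markus' conjecture holds for the closed affine 3-manifolds `Γ \ Ω`, with `Ω` a domain of the affine
space, unless the linear holonomy is faithful, discrete, strongly irreducible and without invariant
quadratic form, and the holonomy group has no virtually solvable normal subgroup.
-/

set_option autoImplicit false

open Pool.Agent.W689.Mk

namespace Pool.Agent.H817.Old.DomainsOfThreeSpace

section
variable {E Γ : Type} [NormedAddCommGroup E] [NormedSpace ℝ E] [Group Γ]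

/-- The linear holonomy of `K` preserves the subspace `W`. -/
def Preserves (hol : Γ →* (E ≃ᵃ[ℝ] E)) (K : Subgroup Γ) (W : Submodule ℝ E) : Prop :=
  ∀ γ ∈ K, ∀ w ∈ W, (hol γ).linear w ∈ W

/-- The linear holonomy of `K` preserves the bilinear form `B`, which is symmetric. -/
def PreservesForm (hol : Γ →* (E ≃ᵃ[ℝ] E)) (K : Subgroup Γ) (B : E →ₗ[ℝ] E →ₗ[ℝ] ℝ) : Prop :=
  (∀ v w, B v w = B w v) ∧ ∀ γ ∈ K, ∀ v w, B ((hol γ).linear v) ((hol γ).linear w) = B v w

/-- `f K` normalises `f N`. -/
def Normalises {G : Type} [Group G] (f : Γ →* G) (K N : Subgroup Γ) : Prop :=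
  ∀ γ ∈ K, ∀ a ∈ N, ∃ b ∈ N, f (γ * a * γ⁻¹) = f b

/-- `f N` has a solvable subgroup of finite index. -/
def VirtuallySolvable {G : Type} [Group G] (f : Γ →* G) (N : Subgroup Γ) : Prop :=
  ∃ S : Subgroup (N.map f), S.FiniteIndex ∧ Group.IsSolvable S

/-- The linear holonomy is discrete, with finite kernel. -/
def Discrete (hol : Γ →* (E ≃ᵃ[ℝ] E)) : Prop :=
  ∀ R : ℝ, {γ : Γ | ∀ v : E, ‖(hol γ).linear v‖ ≤ R * ‖v‖}.Finite

/-- The affine representation `hol` of the group `Γ` has large linear part. -/
structure LargeLinearPart (hol : Γ →* (E ≃ᵃ[ℝ] E)) : Prop where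
  /-- an element with trivial linear holonomy has trivial affine holonomy: there are no
  translations -/
  faithful : ∀ γ : Γ, (∀ v : E, (hol γ).linear v = v) → hol γ = 1
  /-- the linear holonomy is discrete, with finite kernel -/
  discrete : Discrete hol
  /-- the linear holonomy of the subgroups of finite index is irreducible -/
  irreducible : ∀ K : Subgroup Γ, K.FiniteIndex → ∀ W : Submodule ℝ E, Preserves hol K W →
    W = ⊥ ∨ W = ⊤
  /-- no subgroup of finite index preserves a nonzero symmetric bilinear form -/
  noForm : ∀ K : Subgroup Γ, K.FiniteIndex → ∀ B : E →ₗ[ℝ] E →ₗ[ℝ] ℝ, PreservesForm hol K B →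
    B = 0
  /-- if the affine holonomy of the subgroup `N` is virtually solvable and normalised by the
  holonomy of a subgroup `K` of finite index, it is trivial -/
  noSolvable : ∀ K N : Subgroup Γ, K.FiniteIndex → Normalises hol K N →
    VirtuallySolvable hol N → ∀ a ∈ N, hol a = 1

end

/-- A closed affine manifold with parallel volume of dimension three, given by a cover `X` with its
group `Γ`, developing map `dev` and holonomy `hol`; assume that the developing map is injective, so
that the manifold is a quotient `Γ \ Ω` of a domain `Ω` of the affine space. Then the structure is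
complete, `Ω` is the whole space, or the linear part of the holonomy is large: faithful on the
holonomy group, discrete, irreducible on all subgroups of finite index and without invariant
quadratic form for them, and then the holonomy group has no nontrivial virtually solvable subgroup
normalised by a subgroup of finite index. -/
theorem result (E X Γ : Type) [NormedAddCommGroup E] [NormedSpace ℝ E] [FiniteDimensional ℝ E]
    [TopologicalSpace X] [T2Space X] [SecondCountableTopology X] [ConnectedSpace X]
    [Group Γ] [MulAction Γ X] (dev : X → E) (hol : Γ →* (E ≃ᵃ[ℝ] E))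
    (D : AffData X Γ E dev hol) (hinj : Function.Injective dev)
    (h3 : Module.finrank ℝ E = 3) : IsHomeomorph dev ∨ LargeLinearPart hol := by
  by_cases hc : IsHomeomorph dev
  · exact Or.inl hc
  refine Or.inr ⟨fun γ hγ => ?_, fun R => ?_, fun K hK W hW => ?_, fun K hK B ⟨hs, hB⟩ => ?_,
    fun K N hK hnor ⟨S, hS, hsol⟩ a ha => ?_⟩
  · by_contra hcon
    apply hc
    have h1 : ∀ q, hol γ q = q + hol γ 0 := by
      intro q
      have h := (hol γ).map_vadd 0 q
      rw [vadd_eq_add, vadd_eq_add, add_zero, hγ] at h
      exact h
    refine Pool.Agent.H817.MA.trans_complete D hinj h3 γ (hol γ 0) ?_ h1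
    intro h0
    apply hcon
    refine AffineEquiv.ext fun q => ?_
    rw [h1, h0, add_zero]
    rfl
  · by_contra hcon
    exact hc (Pool.Agent.H817.RB.proper_or_complete D hinj h3 R hcon)
  · by_contra hcon
    push Not at hcon
    exact hc (Pool.Agent.H817.RB.reducible_complete D hinj h3 K hK W hcon.1 hcon.2 hW)
  · by_contra hcon
    exact hc (Pool.Agent.H817.RB.form_complete D hinj h3 K hK B hs hcon hB)
  · by_contra hcon
    apply hc
    refine Pool.Agent.H817.MA.virtually_solvable_normal D hinj h3 K N hK ?_ S hS hsol ?_
    · intro γ hγ a ha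
      obtain ⟨b, hb, h1⟩ := hnor γ hγ a ha
      exact ⟨b, hb, fun q => by rw [h1]⟩
    · refine ⟨a, ha, ?_⟩
      by_contra h1
      push Not at h1
      exact hcon (AffineEquiv.ext h1)

end Pool.Agent.H817.Old.DomainsOfThreeSpace
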