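import Pool.Agent.H817.PH.Main

/-!
# Quotients of domains of the affine 3-space: the linear holonomy is positive

Markus' conjecture holds for the closed affine 3-manifolds `Γ \ Ω` with parallel volume, `Ω` a
domain of the affine space, unless the linear holonomy is positive: it preserves a properly convex
cone in the space of endomorphisms of trace zero, generated by nilpotent endomorphisms of rank one,
all its elements of infinite order have only real eigenvalues, and the middle eigenvalues are
positive.
-/

set_option autoImplicit false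

open Pool.Agent.W689.Mk

namespace Pool.Agent.H817.Old.PositiveLinearHolonomy

section
variable {E X Γ : Type} [NormedAddCommGroup E] [NormedSpace ℝ E] [Group Γ]

/-- The complex number `m` is an eigenvalue of the real linear map `T`, with the complex eigenvector
`u + i w`. -/
def Eigenvalue (T : E ≃ₗ[ℝ] E) (m : ℂ) : Prop :=
  ∃ u w : E, (u ≠ 0 ∨ w ≠ 0) ∧ T u = m.re • u - m.im • w ∧ T w = m.im • u + m.re • w

/-- `T` has three real eigenvalues `l 0, l 1, l 2` with distinct absolute values, in decreasing
order, and the basis `e` of eigenvectors. -/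
def Regular (T : E ≃ₗ[ℝ] E) (e : Module.Basis (Fin 3) ℝ E) (l : Fin 3 → ℝ) : Prop :=
  (∀ i, T (e i) = l i • e i) ∧ |l 1| < |l 0| ∧ |l 2| < |l 1|

/-- The set `C` of endomorphisms of `E` is invariant under `X ↦ det (T) T X T⁻¹`, for all linear
holonomies `T`; here `det (T) = ± 1` (on the subgroup of the transformations preserving the
orientation this is the conjugation). -/
def Invariant (hol : Γ →* (E ≃ᵃ[ℝ] E)) (C : Set (E →L[ℝ] E)) : Prop :=
  ∀ γ : Γ, ∀ A ∈ C, ∃ B ∈ C, ∀ v : E,
    B v = LinearMap.det ((hol γ).linear : E →ₗ[ℝ] E) • (hol γ).linear (A ((hol γ).linear.symm v))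

/-- The developing map `dev` and the holonomy `hol` are positive. -/
structure Positive (dev : X → E) (hol : Γ →* (E ≃ᵃ[ℝ] E)) : Prop where
  /-- the linear holonomy preserves a closed convex cone of endomorphisms which contains no line,
  and which contains a nilpotent endomorphism `v ↦ φ v • a` of rank one -/
  cone : ∃ (C : Set (E →L[ℝ] E)) (φ : E →L[ℝ] ℝ) (a : E), IsClosed C ∧ Convex ℝ C ∧
    (∀ t : ℝ, 0 ≤ t → ∀ A ∈ C, t • A ∈ C) ∧ (∀ A ∈ C, -A ∈ C → A = 0) ∧ φ ≠ 0 ∧ a ≠ 0 ∧ φ a = 0 ∧
    φ.smulRight a ∈ C ∧ Invariant hol C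
  /-- the elements with an eigenvalue which is not real have finite order -/
  realEigenvalues : ∀ (γ : Γ) (m : ℂ), m.im ≠ 0 → Eigenvalue (hol γ).linear m →
    ∃ n : ℕ, 0 < n ∧ γ ^ n = 1
  /-- the middle eigenvalues are positive, if their absolute value is not one -/
  middlePositive : ∀ (γ : Γ) (e : Module.Basis (Fin 3) ℝ E) (l : Fin 3 → ℝ),
    Regular (hol γ).linear e l → |l 1| ≠ 1 → 0 < l 1
  /-- there are elements with three real eigenvalues of distinct absolute values, different from
  one -/
  regular : ∃ (γ : Γ) (e : Module.Basis (Fin 3) ℝ E) (l : Fin 3 → ℝ),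
    Regular (hol γ).linear e l ∧ |l 1| < 1
  /-- a closed half-plane of some plane does not meet the domain -/
  halfPlane : ∃ p u w : E, LinearIndependent ℝ ![u, w] ∧
    ∀ (x : X) (s t : ℝ), 0 ≤ t → dev x ≠ p + s • u + t • w

end

/-- A closed affine manifold with parallel volume of dimension three, given by a cover `X` with its
group `Γ`, developing map `dev` and holonomy `hol`; assume that the developing map is injective, so
that the manifold is a quotient `Γ \ Ω` of a domain `Ω` of the affine space. Then the structure is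
complete, i.e. `Ω` is the whole space, or it is positive. In particular it is complete if some
linear holonomy of an element of infinite order has an eigenvalue which is not real, or if some
linear holonomy has real eigenvalues of distinct absolute values, the middle one being negative and
not `-1`. -/
theorem result (E X Γ : Type) [NormedAddCommGroup E] [NormedSpace ℝ E] [FiniteDimensional ℝ E]
    [TopologicalSpace X] [T2Space X] [SecondCountableTopology X] [ConnectedSpace X]
    [Group Γ] [MulAction Γ X] (dev : X → E) (hol : Γ →* (E ≃ᵃ[ℝ] E))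
    (D : AffData X Γ E dev hol) (hinj : Function.Injective dev)
    (h3 : Module.finrank ℝ E = 3) : IsHomeomorph dev ∨ Positive dev hol := by
  by_cases hc : IsHomeomorph dev
  · exact Or.inl hc
  have hcore : Pool.Agent.H817.PH.S_core2 := Pool.Agent.H817.PH.t_core2 Pool.Agent.H817.PH.t_dyn Pool.Agent.H817.PH.t_comp
    Pool.Agent.H817.PH.t_comp' Pool.Agent.H817.PH.t_nonconst Pool.Agent.H817.PH.t_semi
  have hreg : ∀ (γ : Γ) (e : Module.Basis (Fin 3) ℝ E) (l : Fin 3 → ℝ),
      Regular (hol γ).linear e l → Pool.Agent.H817.PH.Reg (Pool.Agent.H817.PH.L hol γ) e l := by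
    rintro γ e l ⟨h1, h2, h4⟩
    refine ⟨h1, h2, h4, fun h0 => ?_⟩
    have h5 := h1 2
    rw [h0, zero_smul] at h5
    exact e.ne_zero 2 ((hol γ).linear.map_eq_zero_iff.1 h5)
  refine Or.inr ⟨?_, ?_, ?_, ?_, ?_⟩
  · obtain ⟨C, φ, a, Θ, c, k1, k2, k3, k4, k5, k6, k7, k8, k9, k10⟩ :=
      Pool.Agent.H817.PH.cone hcore D hinj h3 hc
    refine ⟨C, φ, a, k1, ?_, k3, ?_, k4, k5, k6, k7, ?_⟩
    · intro A hA B hB s t hs ht _
      exact k2 _ (k3 s hs A hA) _ (k3 t ht B hB)
    · intro A hA hA'
      have h1 := k10 A hA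
      have h2 := k10 (-A) hA'
      rw [norm_neg, map_neg] at h2
      have h4 : c * ‖A‖ ≤ 0 := by linarith
      have h5 : ‖A‖ ≤ 0 := by
        by_contra h
        push Not at h
        have := mul_pos k9 h
        linarith
      exact norm_le_zero_iff.1 h5
    · intro γ A hA
      refine ⟨_, k8 γ A hA, fun v => ?_⟩
      have h1 : Pool.Agent.H817.PH.L hol γ⁻¹ v = (hol γ).linear.symm v := by
        rw [map_inv]
        rfl
      show LinearMap.det ((hol γ).linear : E →ₗ[ℝ] E) •
        (hol γ).linear (A (Pool.Agent.H817.PH.L hol γ⁻¹ v)) = _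
      rw [h1]
  · rintro γ m hm ⟨u, w, huw, hu, hw⟩
    exact Pool.Agent.H817.PH.real_eigenvalues hcore D hinj h3 hc γ m u w hm huw hu hw
  · intro γ e l hl h1
    exact Pool.Agent.H817.PH.middle_pos hcore D hinj h3 hc γ e l (hreg γ e l hl) h1
  · obtain ⟨γ, e, l, hr, h1⟩ := Pool.Agent.H817.PH.exists_regular D hinj h3 hc
    exact ⟨γ, e, l, ⟨hr.eig, hr.h0, hr.h1⟩, h1⟩
  · exact Pool.Agent.H817.PH.half_plane hcore D hinj h3 hc

end Pool.Agent.H817.Old.PositiveLinearHolonomy
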